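import Pool.Agent.TH784.AA.Fin

/-!
# Pointwise convergence of multiple ergodic averages for algebraic `ℤ^d`-actions

`X` is an arbitrary compact Hausdorff abelian group with its Haar probability measure `μ` and
`T_1, …, T_d` are commuting affine bijections `x ↦ α_i x · c_i` with `α_i` a continuous
homomorphism (so `α_i` is an automorphism): algebraic `ℤ^d`-actions (`c_i = 1`), rotations and
unipotent affine actions are included. No ergodicity, mixing, expansiveness, entropy, Noetherian
or metrizability assumption is made.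

`IsFactor μ T ν R` (start library): some measure preserving `π : X → Y` satisfies
`π (T i x) = R i (π x)` for almost every `x`.
-/

set_option autoImplicit false

open Filter Topology MeasureTheory
open scoped ENNReal

namespace Pool.Agent.Results.MP_4d8f14_an.AlgebraicActions

open Pool.Agent.W761.Gauss (IsFactor)

/-- Let `T_1, …, T_d` be commuting affine bijections of a compact Hausdorff abelian group `X` with
Haar probability `μ`, let `R_1, …, R_d` be a factor of this system (for example, the system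
itself), let `P_ij ∈ ℤ[n]` be polynomials of degree at most one and `f_1, …, f_m ∈ L^∞`. Then for
almost every `y` the averages
`(1/(2N+1)) ∑_{|n| ≤ N} ∏_j f_j (R_1^(P_1j(n)) ⋯ R_d^(P_dj(n)) y)` converge. -/
theorem result (d m : ℕ) {X Y : Type} [CommGroup X] [TopologicalSpace X]
    [IsTopologicalGroup X] [CompactSpace X] [T2Space X] [MeasurableSpace X] [BorelSpace X]
    [MeasurableSpace Y] (μ : Measure X) [μ.IsHaarMeasure] [IsProbabilityMeasure μ]
    (ν : Measure Y) (T : Fin d → Equiv.Perm X)
    (hT : ∀ i, ∃ (α : X →ₜ* X) (c : X), ∀ x, T i x = α x * c)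
    (hc : ∀ i j, Commute (T i) (T j))
    (R : Fin d → Equiv.Perm Y) (hRm : ∀ i, Measurable (R i).symm)
    (hR : ∀ i, MeasurePreserving (R i) ν ν) (hfac : IsFactor μ T ν R)
    (P : Fin d → Fin m → Polynomial ℤ) (hP : ∀ i j, (P i j).natDegree ≤ 1)
    (f : Fin m → Y → ℂ) (hf : ∀ j, MemLp (f j) ∞ ν) :
    ∀ᵐ y ∂ν, ∃ L : ℂ, Tendsto (fun N : ℕ => ((2 * N + 1 : ℕ) : ℂ)⁻¹ *
      ∑ n ∈ Finset.Icc (-(N : ℤ)) (N : ℤ), ∏ j, f j ((List.ofFn fun i : Fin d =>
        R i ^ (P i j).eval n).prod y)) atTop (𝓝 L) := by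
  have he : ∀ i j (z : ℤ), (P i j).eval z = (P i j).coeff 0 + z * (P i j).coeff 1 := by
    intro i j z
    rw [Polynomial.eval_eq_sum_range' (Nat.lt_succ_of_le (hP i j)), Finset.sum_range_succ,
      Finset.sum_range_one]
    ring
  have h1 := Pool.Agent.TH784.AA.factor_gen (k := 1)
    (fun i => Pool.Agent.TH784.AA.IsAff.mp (hT i))
    (fun i => Pool.Agent.TH784.AA.mp_symm (hT i)) hRm hR hfac
    (fun m i j => (P i j).coeff 0 + ∑ l, ((m l : ℕ) : ℤ) * (P i j).coeff 1)
    (fun g hg => Pool.Agent.TH784.AA.affine_conv (μ := μ) hT hc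
        (fun i j => (P i j).coeff 0) (fun i j _ => (P i j).coeff 1) hg) hf
  have h2 := Pool.Agent.TH784.AA.factor_gen (k := 1)
    (fun i => Pool.Agent.TH784.AA.IsAff.mp (hT i))
    (fun i => Pool.Agent.TH784.AA.mp_symm (hT i)) hRm hR hfac
    (fun m i j => (P i j).coeff 0 + ∑ l, ((m l : ℕ) : ℤ) * -(P i j).coeff 1)
    (fun g hg => Pool.Agent.TH784.AA.affine_conv (μ := μ) hT hc
        (fun i j => (P i j).coeff 0) (fun i j _ => -(P i j).coeff 1) hg) hf
  filter_upwards [h1, h2] with y hy1 hy2
  apply Pool.Agent.TH784.AA.two_sided (F := fun z : ℤ => ∏ j, f j ((List.ofFn fun i : Fin d =>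
    R i ^ (P i j).eval z).prod y))
  · obtain ⟨L, hL⟩ := hy1
    refine ⟨L, hL.congr fun N => ?_⟩
    congr 1
    funext m
    simp only [he, Fin.sum_univ_one]
  · obtain ⟨L, hL⟩ := hy2
    refine ⟨L, hL.congr fun N => ?_⟩
    congr 1
    funext m
    simp only [he, Fin.sum_univ_one, mul_neg, neg_mul]

end Pool.Agent.Results.MP_4d8f14_an.AlgebraicActions
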