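import Pool.Agent.TH784.KE.One

/-!
# The base of a Kolmogorov extension is characteristic for multiple averages almost everywhere

A group `G` acts by measure preserving bijections `Φ g` of a probability space `(X, μ)` and
`ℓ : G → ℝ` is a homomorphism. `𝒴 ⊆ 𝒜` are sub-`σ`-algebras, `𝒴` is invariant, and

* `(Φ g)⁻¹ 𝒜 ⊆ 𝒜` whenever `ℓ g ≤ 0`,
* the `(Φ g)⁻¹ 𝒜`, `g ∈ G`, generate all measurable sets modulo `μ`,
* the intersection of the `(Φ g)⁻¹ 𝒜`, `g ∈ G`, is contained in `𝒴` modulo `μ`,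

that is, the action is a Kolmogorov (`K`-) extension of its factor `𝒴` (for `𝒴` trivial: a
`K`-action). Nothing is assumed about the factor `𝒴`. `G` need not be commutative or nilpotent.
For commuting `T_1, …, T_d` take `b_j = T_1^(a_1j) ⋯ T_d^(a_dj)`, so that
`Φ (b_j)^n = T_1^(a_1j n) ⋯ T_d^(a_dj n)`.
-/

set_option autoImplicit false

open Filter Topology MeasureTheory
open scoped ENNReal

namespace Pool.Agent.Results.MP_4d8f14_an.KolmogorovFactor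

open Pool.Agent.W761.Gauss (BM_of_memLp)

/-- Let `X` be a Kolmogorov extension of its factor `𝒴` with respect to the homomorphism
`ℓ : G → ℝ`, let `b_1, …, b_m ∈ G` have distinct nonzero `ℓ (b_j)` and let
`f_1, …, f_m ∈ L^∞(X)`. Then for almost every `x` the averages over `|n| ≤ N` of
`∏_j f_j (b_j^n x)` and of `∏_j E(f_j | 𝒴) (b_j^n x)` have difference tending to zero. -/
theorem result (m : ℕ) {X G : Type} [Group G] (𝒜 𝒴 : MeasurableSpace X) [mX : MeasurableSpace X]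
    (μ : Measure X) [IsProbabilityMeasure μ] (Φ : G →* Equiv.Perm X)
    (hΦ : ∀ g, MeasurePreserving (Φ g) μ μ)
    (ℓ : G → ℝ) (hℓ : ∀ g h, ℓ (g * h) = ℓ g + ℓ h)
    (h𝒜 : 𝒜 ≤ mX) (h𝒴 : 𝒴 ≤ 𝒜) (hinv : ∀ g, Measurable[𝒴, 𝒴] (Φ g : X → X))
    (hmono : ∀ g, ℓ g ≤ 0 → 𝒜.comap (Φ g : X → X) ≤ 𝒜)
    (hgen : ∀ B, MeasurableSet[mX] B →
      ∃ B', MeasurableSet[⨆ g, 𝒜.comap (Φ g : X → X)] B' ∧ B =ᵐ[μ] B')
    (htail : ∀ B, (∀ g, MeasurableSet[𝒜.comap (Φ g : X → X)] B) →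
      ∃ B', MeasurableSet[𝒴] B' ∧ B =ᵐ[μ] B')
    (b : Fin m → G) (hb0 : ∀ j, ℓ (b j) ≠ 0) (hb : ∀ i j, i ≠ j → ℓ (b i) ≠ ℓ (b j))
    (f : Fin m → X → ℂ) (hf : ∀ j, MemLp (f j) ∞ μ) :
    ∀ᵐ x ∂μ, Tendsto (fun N : ℕ => ((2 * N + 1 : ℕ) : ℂ)⁻¹ *
      ∑ n ∈ Finset.Icc (-(N : ℤ)) (N : ℤ), (∏ j, f j ((Φ (b j) ^ n : Equiv.Perm X) x) -
        ∏ j, (μ[f j | 𝒴]) ((Φ (b j) ^ n : Equiv.Perm X) x))) atTop (𝓝 0) := by
  have hK : Pool.Agent.TH784.KE.KExt μ 𝒜 𝒴 Φ ℓ := ⟨hΦ, ⟨hℓ, h𝒜, hmono⟩, ⟨h𝒴, hinv⟩, hgen, htail⟩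
  choose g hg hfg using fun j => BM_of_memLp (hf j)
  choose e he heY hee hfe using fun j =>
    Pool.Agent.TH784.KE.exists_cond (μ := μ) (h𝒴.trans h𝒜) (hg j)
  have hmain := Pool.Agent.TH784.KE.two_sided_char hK b hb0 hb hg he heY hfe
  have h1 : ∀ᵐ x ∂μ, ∀ (n : ℤ) (j : Fin m), f j (Φ (b j ^ n) x) = g j (Φ (b j ^ n) x) := by
    rw [ae_all_iff]
    intro n
    rw [ae_all_iff]
    intro j
    exact (hΦ _).quasiMeasurePreserving.ae (hfg j)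
  have h2 : ∀ᵐ x ∂μ, ∀ (n : ℤ) (j : Fin m),
      (μ[f j | 𝒴]) (Φ (b j ^ n) x) = e j (Φ (b j ^ n) x) := by
    rw [ae_all_iff]
    intro n
    rw [ae_all_iff]
    intro j
    have h3 : μ[f j | 𝒴] =ᵐ[μ] e j := (condExp_congr_ae (hfg j)).trans (hee j).symm
    exact (hΦ _).quasiMeasurePreserving.ae h3
  filter_upwards [hmain, h1, h2] with x hx hx1 hx2
  refine hx.congr fun N => ?_
  congr 1
  refine Finset.sum_congr rfl fun n _ => ?_
  congr 1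
  · refine Finset.prod_congr rfl fun j _ => ?_
    rw [← map_zpow, hx1]
  · refine Finset.prod_congr rfl fun j _ => ?_
    rw [← map_zpow, hx2]

end Pool.Agent.Results.MP_4d8f14_an.KolmogorovFactor
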