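import Pool.Agent.TH739.PA.Exi

/-!
# Poisson extensions: the base is characteristic almost everywhere

`IsPoissonAction κ Θ ν Ψ`: the group `G` acts by measure preserving bijections `Θ g` of the
(typically infinite) measure space `(W, κ)` and by measure preserving bijections `Ψ g` of the
probability space `(Y, ν)`, and there are events `E A` (that no point of the configuration lies in
`A`) for the measurable sets `A` with `κ A < ∞`, which generate the σ-algebra modulo null sets, such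
that `ν (E A) = exp (-κ A)`, `E (A ∪ B) = E A ∩ E B` and `(Ψ g)⁻¹ (E A) = E ((Θ g)⁻¹ A)` modulo null
sets. By the theorem of Rényi these are the Poisson suspensions of the actions `Θ` (if `κ` has
atoms, only the set of the occupied points is considered). They exist for every `Θ`
(`Pool.Agent.TH739.PA.exists_isPoissonAction`).

The group `G` is arbitrary. In the setting of the problem it is the nilpotent group generated by
`t_1, …, t_d`, and `g j n = t_1^(P_1j(n)) ⋯ t_d^(P_dj(n))`.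
-/

set_option autoImplicit false

open Filter Topology MeasureTheory
open scoped ENNReal symmDiff

namespace Pool.Agent.Results.MP_4d8f14_an.PoissonFactor

open Pool.Agent.TH739.PA

/-- The averages over `|n| ≤ N` of single bounded functions along the maps `t n` converge almost
everywhere. -/
def SingleAveragesConverge {Z : Type} [MeasurableSpace Z] (P : Measure Z) (t : ℤ → Z → Z) : Prop :=
  ∀ H : Z → ℝ, Measurable H → (∃ C : ℝ, ∀ z, |H z| ≤ C) →
    ∀ᵐ z ∂P, ∃ L : ℝ, Tendsto (fun N : ℕ => ((2 * N + 1 : ℕ) : ℝ)⁻¹ *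
      ∑ n ∈ Finset.Icc (-(N : ℤ)) (N : ℤ), H (t n z)) atTop (𝓝 L)

/-- Let the group `G` act by measure preserving bijections `Φ g` on an arbitrary probability space
`(X, μ)`, and let its action `Ψ` on `(Y, ν)` be the Poisson suspension of the action `Θ` on
`(W, κ)`. Let `g_1, …, g_m : ℤ → G` be arbitrary sequences such that for the sets `A`, `B` of a
family `ℛ` which is dense among the sets of finite measure

* `∑_{n, n'} κ (g_j(n)⁻¹ A ∩ g_j(n')⁻¹ A) / (1 + max (|n|, |n'|))² < ∞` for every `j`,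
* the averages of `κ (g_i(n)⁻¹ A ∩ g_j(n)⁻¹ B)` over `|n| ≤ N` tend to zero for `i ≠ j`.

For each `j` let `g_j(n) = b^n` for some `b`, or let the averages of single bounded functions on
`X × Y` along `g_j` converge almost everywhere. Then for all `f_1, …, f_m ∈ L^∞(X × Y)`, with
conditional expectations `E(f_j | X)(x) = ∫ f_j(x, y) dν(y)`, the averages over `|n| ≤ N` of
`∏_j f_j (g_j(n) (x, y))` and of `∏_j E(f_j | X) (g_j(n) x)` have difference tending to zero for
almost every `(x, y)`. -/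
theorem result (m : ℕ) {X Y W G : Type} [Group G] [MeasurableSpace X] [MeasurableSpace Y]
    [MeasurableSpace W] (μ : Measure X) [IsProbabilityMeasure μ] (ν : Measure Y)
    [IsProbabilityMeasure ν] (κ : Measure W)
    (Φ : G →* Equiv.Perm X) (hΦ : ∀ g, MeasurePreserving (Φ g) μ μ)
    (Θ : G →* Equiv.Perm W) (Ψ : G →* Equiv.Perm Y) (hΨ : IsPoissonAction κ Θ ν Ψ)
    (g : Fin m → ℤ → G) (ℛ : Set (Set W)) (hℛ : ∀ A ∈ ℛ, MeasurableSet A ∧ κ A ≠ ∞)
    (hdense : ∀ A, MeasurableSet A → κ A ≠ ∞ → ∀ ε : ℝ, 0 < ε →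
      ∃ B ∈ ℛ, (κ (A ∆ B)).toReal ≤ ε)
    (hsum : ∀ j, ∀ A ∈ ℛ, Summable fun p : ℤ × ℤ =>
      (κ (Θ (g j p.1) ⁻¹' A ∩ Θ (g j p.2) ⁻¹' A)).toReal /
        (1 + max |(p.1 : ℝ)| |(p.2 : ℝ)|) ^ 2)
    (hoverlap : ∀ i j, i ≠ j → ∀ A ∈ ℛ, ∀ B ∈ ℛ, Tendsto (fun N : ℕ =>
      ((2 * N + 1 : ℕ) : ℝ)⁻¹ * ∑ n ∈ Finset.Icc (-(N : ℤ)) (N : ℤ),
        (κ (Θ (g i n) ⁻¹' A ∩ Θ (g j n) ⁻¹' B)).toReal) atTop (𝓝 0))
    (hsingle : ∀ j, (∃ b : G, ∀ n, g j n = b ^ n) ∨
      SingleAveragesConverge (μ.prod ν) (fun n z => (Φ (g j n) z.1, Ψ (g j n) z.2)))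
    (f : Fin m → X × Y → ℂ) (hf : ∀ j, MemLp (f j) ∞ (μ.prod ν)) :
    ∀ᵐ z ∂(μ.prod ν), Tendsto (fun N : ℕ => ((2 * N + 1 : ℕ) : ℂ)⁻¹ *
      ∑ n ∈ Finset.Icc (-(N : ℤ)) (N : ℤ),
        (∏ j, f j (Φ (g j n) z.1, Ψ (g j n) z.2) - ∏ j, ∫ y, f j (Φ (g j n) z.1, y) ∂ν))
      atTop (𝓝 0) := by
  have h := factor_two_sided hΦ hΨ g hℛ hdense hsum (fun i j hij A hA B hB => by
    refine (hoverlap i j hij A hA B hB).congr fun N => ?_
    rw [avr, Icc_card]
    rfl) (fun j => by
    refine (hsingle j).imp_right fun h H hH hC => ?_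
    filter_upwards [h H hH hC] with z hz
    obtain ⟨L, hL⟩ := hz
    refine ⟨L, hL.congr fun N => ?_⟩
    rw [avr, Icc_card]) hf
  filter_upwards [h] with z hz
  refine hz.congr fun N => ?_
  rw [av, Icc_card]

end Pool.Agent.Results.MP_4d8f14_an.PoissonFactor
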