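import Pool.Agent.TH635.FB.Fin

/-!
# Pointwise convergence of multiple polynomial averages of toral automorphisms

`toralAut A` is the automorphism `x ↦ A x` of the torus `𝕋^r = (ℝ/ℤ)^r` given by a matrix
`A ∈ GL_r(ℤ)`, and `haarT r` is the Haar probability measure of `𝕋^r`. `SingleGood μ g`: the averages
`(1/(2N+1)) ∑_{|n| ≤ N} G (g n x)` of every bounded measurable real function `G` converge for almost
every `x`. No commutation, nilpotency or ergodicity assumption is made.
-/

set_option autoImplicit false

open Filter Topology MeasureTheory Polynomial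
open scoped ENNReal

namespace Pool.Agent.Results.MP_4d8f14_an.ToralPolynomials

open Pool.Agent.TH635.FB
open Pool.Agent.H922R3.TA (haarT)

/-- Let `T_i = toralAut (A i)` with `A_1, …, A_d ∈ GL_r(ℤ)` arbitrary (in particular they need not
commute), let `P_ij ∈ ℤ[n]` be arbitrary and `g_j(n) = T_1^(P_1j(n)) ⋯ T_d^(P_dj(n))`. Let
`f_1, …, f_m ∈ L^∞(𝕋^r)` be such that, for each `j`, either `f_j` is continuous at almost every
point (for example, continuous), or the matrices of `g_j(n)` are `V^n W` for some fixed
`V, W ∈ GL_r(ℤ)` (and `f_j` is arbitrary), or the averages of single bounded functions along `g_j`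
converge almost everywhere (and `f_j` is arbitrary). Then
`(1/(2N+1)) ∑_{|n| ≤ N} f_1 (g_1(n) x) ⋯ f_m (g_m(n) x)` converges for almost every `x`. -/
theorem result (r d m : ℕ) (A : Fin d → (Matrix (Fin r) (Fin r) ℤ)ˣ)
    (P : Fin d → Fin m → ℤ[X]) (f : Fin m → UnitAddTorus (Fin r) → ℂ)
    (hf : ∀ j, MemLp (f j) ∞ (haarT r))
    (hg : ∀ j, (∀ᵐ x ∂(haarT r), ContinuousAt (f j) x) ∨
      (∃ V W : (Matrix (Fin r) (Fin r) ℤ)ˣ, ∀ n : ℤ,
        (List.ofFn fun i : Fin d => A i ^ (P i j).eval n).prod = V ^ n * W) ∨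
      SingleGood (haarT r) fun n =>
        (List.ofFn fun i : Fin d => toralAut (A i) ^ (P i j).eval n).prod) :
    ∀ᵐ x ∂(haarT r), ∃ L : ℂ, Tendsto
      (fun N : ℕ => ((2 * N + 1 : ℕ) : ℂ)⁻¹ *
        ∑ n ∈ Finset.Icc (-(N : ℤ)) (N : ℤ),
          ∏ j : Fin m, f j ((List.ofFn fun i : Fin d => toralAut (A i) ^ (P i j).eval n).prod x))
      atTop (𝓝 L) := by
  have horb : ∀ (j : Fin m) (n : ℤ), orb A P j n =
      (List.ofFn fun i : Fin d => toralAut (A i) ^ (P i j).eval n).prod := fun j n => by
    rw [orb, mats_aut]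
  have h := main_top A P hf fun j => by
    rcases hg j with h | ⟨V, W, h⟩ | h
    · exact Or.inl h
    · refine Or.inr ?_
      have e : orb A P j = fun n => (toralAut (V ^ n * W) : UnitAddTorus (Fin r) → _) := by
        funext n
        rw [orb, mats, h n]
      rw [e]
      exact single_linear V W
    · refine Or.inr ?_
      have e : orb A P j = fun n => ((List.ofFn fun i : Fin d =>
          toralAut (A i) ^ (P i j).eval n).prod : UnitAddTorus (Fin r) → _) := by
        funext n
        rw [horb]
      rw [e]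
      exact h
  filter_upwards [h] with x hx
  obtain ⟨L, hL⟩ := hx
  refine ⟨L, hL.congr fun N => ?_⟩
  rw [av]
  congr 1
  apply Finset.sum_congr rfl
  intro n _
  exact Finset.prod_congr rfl fun j _ => by rw [horb]

end Pool.Agent.Results.MP_4d8f14_an.ToralPolynomials
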